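import Pool.Agent.W223.HZ.Stms

/-! HZ-PRM: many primes in `(N, 16 N log N]` (helper499). -/

namespace Pool.Agent.W499.HZ.PRM

open Real

theorem t : Pool.Agent.W223.HZ.StmtPRM := by
  intro N hN
  have hN' : (100 : ℝ) ≤ N := by exact_mod_cast hN
  have hN0 : (0 : ℝ) < N := by linarith
  set l : ℝ := Real.log N with hl
  have h4 : 4 ≤ l := by
    rw [hl, Real.le_log_iff_exp_le hN0]
    have h1 : Real.exp 4 = Real.exp 1 ^ 4 := by rw [← Real.exp_nat_mul]; norm_num
    have h2 := Real.exp_one_lt_d9
    have h3 : Real.exp 1 ^ 4 ≤ 2.7182818286 ^ 4 :=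
      pow_le_pow_left₀ (Real.exp_pos _).le h2.le 4
    rw [h1]
    refine h3.trans (le_trans ?_ hN')
    norm_num
  set x : ℝ := 16 * N * l with hx
  have hNl : 0 < N * l := by positivity
  have hx1 : 1 < x := by nlinarith
  have hlx : Real.log x ≤ 2.7 * l := by
    have e : Real.log x = 4 * Real.log 2 + l + Real.log l := by
      rw [hx, Real.log_mul (by positivity) (by positivity), Real.log_mul (by norm_num) (by positivity)]
      have : (16 : ℝ) = 2 ^ 4 := by norm_num
      rw [this, Real.log_pow]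
      push_cast
      ring
    have h1 := Real.log_two_lt_d9
    have h2 := Real.log_le_sub_one_of_pos (show 0 < l by linarith)
    rw [e]
    linarith
  have hlx2 : Real.log (x + 2) ≤ 0.7 + 2.7 * l := by
    have h1 : Real.log (x + 2) ≤ Real.log (2 * x) :=
      Real.log_le_log (by linarith) (by nlinarith)
    rw [Real.log_mul (by norm_num) (by linarith)] at h1
    have h2 := Real.log_two_lt_d9
    linarith
  have hpi := Chebyshev.pi_ge' hx1
  have hlog0 : 0 < Real.log x := Real.log_pos hx1
  have hkey : (2 * N : ℝ) ≤ (Nat.primeCounting ⌊x⌋₊ : ℝ) := by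
    refine le_trans ?_ hpi
    rw [le_div_iff₀ hlog0]
    have h2 := Real.log_two_gt_d9
    have h3 : 2 * N * Real.log x ≤ 2 * N * (2.7 * l) :=
      mul_le_mul_of_nonneg_left hlx (by positivity)
    have h5 : (x - 1) * 0.69 ≤ (x - 1) * Real.log 2 :=
      mul_le_mul_of_nonneg_left (by linarith) (by linarith)
    have h6 : 100 * l ≤ N * l := mul_le_mul_of_nonneg_right hN' (by linarith)
    have h7 : x = 16 * (N * l) := by rw [hx]; ring
    nlinarith
  refine ⟨(Finset.Ioc N ⌊x⌋₊).filter Nat.Prime, ?_, ?_⟩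
  · have h1 : (2 * N : ℕ) ≤ Nat.primeCounting ⌊x⌋₊ := by exact_mod_cast hkey
    have h2 : Nat.primeCounting ⌊x⌋₊ ≤ ((Finset.Ioc N ⌊x⌋₊).filter Nat.Prime).card + N := by
      rw [Nat.primeCounting, Nat.primeCounting', Nat.count_eq_card_filter_range]
      have hsub : (Finset.range (⌊x⌋₊ + 1)).filter Nat.Prime ⊆
          (Finset.Ioc N ⌊x⌋₊).filter Nat.Prime ∪ Finset.Ioc 0 N := by
        intro p hp
        rw [Finset.mem_filter, Finset.mem_range] at hp
        rw [Finset.mem_union, Finset.mem_filter, Finset.mem_Ioc, Finset.mem_Ioc]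
        have := hp.2.pos
        by_cases h : p ≤ N
        · right; omega
        · left; exact ⟨by omega, hp.2⟩
      refine (Finset.card_le_card hsub).trans ((Finset.card_union_le _ _).trans ?_)
      simp
    omega
  · intro p hp
    rw [Finset.mem_filter, Finset.mem_Ioc] at hp
    refine ⟨hp.2, hp.1.1, ?_⟩
    exact (Nat.le_floor_iff (by linarith)).1 hp.1.2

end Pool.Agent.W499.HZ.PRM
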